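import Pool.Agent.Lib.MP_fa793f_nt.Defs

namespace Pool.Agent.Lib.MP_fa793f_nt

open Polynomial Filter

variable {F : Type} [Field F]

/-- The roots of `P` in the algebraic closure. -/
def rts (P : F[X]) : Set (AlgebraicClosure F) := {x | aeval x P = 0}

lemma rts_eq {P : F[X]} (hP : P ≠ 0) : rts P = P.rootSet (AlgebraicClosure F) := by
  ext x
  rw [mem_rootSet]
  simp [rts, hP]

lemma rts_finite {P : F[X]} (hP : P ≠ 0) : (rts P).Finite := by
  rw [rts_eq hP]
  exact rootSet_finite _ _

lemma ncard_rts_le {P : F[X]} (hP : P ≠ 0) : (rts P).ncard ≤ P.natDegree := by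
  classical
  rw [rts_eq hP, rootSet_def, Set.ncard_coe_finset]
  exact (Multiset.toFinset_card_le _).trans ((card_roots' _).trans (natDegree_map_le))

lemma factorSet_finite {P : F[X]} (hP : P ≠ 0) : (factorSet P).Finite := by
  classical
  refine (UniqueFactorizationMonoid.normalizedFactors P).toFinset.finite_toSet.subset ?_
  rintro p ⟨h1, h2, h3⟩
  simp only [Finset.mem_coe, Multiset.mem_toFinset]
  rw [Polynomial.mem_normalizedFactors_iff hP]
  exact ⟨h2, h1, h3⟩

lemma sqfreeDeg_eq {P : F[X]} (hP : P ≠ 0) :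
    sqfreeDeg P = ∑ p ∈ (factorSet_finite hP).toFinset, p.natDegree := by
  unfold sqfreeDeg
  rw [finsum_mem_eq_finite_toFinset_sum _ (factorSet_finite hP)]

lemma ncard_rts_le_sqfreeDeg {P : F[X]} (hP : P ≠ 0) : (rts P).ncard ≤ sqfreeDeg P := by
  classical
  rw [sqfreeDeg_eq hP]
  have hsub : rts P ⊆ ⋃ p ∈ (factorSet_finite hP).toFinset, rts p := by
    intro x hx
    have hint : IsIntegral F x := (Algebra.IsAlgebraic.isAlgebraic x).isIntegral
    simp only [Set.mem_iUnion, Set.Finite.mem_toFinset]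
    exact ⟨minpoly F x, ⟨minpoly.monic hint, minpoly.irreducible hint, minpoly.dvd F x hx⟩,
      minpoly.aeval F x⟩
  have hfin : (⋃ p ∈ (factorSet_finite hP).toFinset, rts p).Finite := by
    refine Set.Finite.biUnion (Finset.finite_toSet _) fun p hp => rts_finite ?_
    have : p ∈ factorSet P := by simpa using hp
    exact this.1.ne_zero
  refine (Set.ncard_le_ncard hsub hfin).trans ?_
  refine (Finset.set_ncard_biUnion_le _ _).trans (Finset.sum_le_sum fun p hp => ncard_rts_le ?_)
  have : p ∈ factorSet P := by simpa using hp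
  exact this.1.ne_zero

lemma card_natDegree_le [Fintype F] (s : Finset F[X]) (L : ℕ) (hs : ∀ p ∈ s, p.natDegree ≤ L) :
    s.card ≤ Fintype.card F ^ (L + 1) := by
  classical
  have h : s.card ≤ (Finset.univ : Finset (Fin (L + 1) → F)).card := by
    refine Finset.card_le_card_of_injOn (fun p i => p.coeff i) (fun _ _ => Finset.mem_univ _) ?_
    intro p hp q hq hpq
    ext i
    by_cases hi : i < L + 1
    · exact congrFun hpq ⟨i, hi⟩
    · rw [coeff_eq_zero_of_natDegree_lt (by have := hs p hp; omega),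
        coeff_eq_zero_of_natDegree_lt (by have := hs q hq; omega)]
  simpa using h

lemma mul_ncard_factorSet_le [Fintype F] {P : F[X]} (hP : P ≠ 0) (L : ℕ) :
    L * (factorSet P).ncard ≤ L * Fintype.card F ^ (L + 1) + sqfreeDeg P := by
  classical
  rw [sqfreeDeg_eq hP, Set.ncard_eq_toFinset_card _ (factorSet_finite hP)]
  set s := (factorSet_finite hP).toFinset
  have h1 := Finset.card_filter_add_card_filter_not (s := s) (fun p : F[X] => p.natDegree ≤ L)
  have h2 := card_natDegree_le (s.filter fun p : F[X] => p.natDegree ≤ L) L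
    fun p hp => (Finset.mem_filter.mp hp).2
  have h3 : L * (s.filter fun p : F[X] => ¬ p.natDegree ≤ L).card ≤ ∑ p ∈ s, p.natDegree := by
    calc L * (s.filter fun p : F[X] => ¬ p.natDegree ≤ L).card
        = ∑ _p ∈ s.filter (fun p : F[X] => ¬ p.natDegree ≤ L), L := by simp [mul_comm]
      _ ≤ ∑ p ∈ s.filter (fun p : F[X] => ¬ p.natDegree ≤ L), p.natDegree :=
          Finset.sum_le_sum fun p hp => by
            have := (Finset.mem_filter.mp hp).2
            omega
      _ ≤ ∑ p ∈ s, p.natDegree :=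
          Finset.sum_le_sum_of_subset (Finset.filter_subset _ _)
  rw [← h1, mul_add]
  exact add_le_add (Nat.mul_le_mul_left _ h2) h3

lemma sqfreeDeg_le_of_rts [Fintype F] {P : F[X]} (hP : P ≠ 0) (M : ℕ) (hM : (rts P).ncard ≤ M) :
    sqfreeDeg P ≤ Fintype.card F ^ (M + 1) * M := by
  classical
  rw [sqfreeDeg_eq hP]
  have hdeg : ∀ p ∈ (factorSet_finite hP).toFinset, p.natDegree ≤ M := by
    intro p hp
    have hp : p ∈ factorSet P := by simpa using hp
    have h1 : (rts p).ncard = p.natDegree := by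
      rw [rts_eq hp.1.ne_zero, ← card_rootSet_eq_natDegree (K := AlgebraicClosure F)
        (PerfectField.separable_of_irreducible hp.2.1) (IsAlgClosed.splits _),
        ← Nat.card_eq_fintype_card, Nat.card_coe_set_eq]
    have h2 : rts p ⊆ rts P := by
      intro x hx
      obtain ⟨r, rfl⟩ := hp.2.2
      have hx : aeval x p = 0 := hx
      show aeval x (p * r) = 0
      rw [map_mul, hx, zero_mul]
    rw [← h1]
    exact (Set.ncard_le_ncard h2 (rts_finite hP)).trans hM
  have h1 := Finset.sum_le_card_nsmul _ _ _ hdeg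
  have h2 := card_natDegree_le _ M hdeg
  rw [smul_eq_mul] at h1
  exact h1.trans (Nat.mul_le_mul_right _ h2)

lemma avgDeg_le (P : F[X]) : avgDeg P ≤ sqfreeDeg P := by
  unfold avgDeg
  rcases Nat.eq_zero_or_pos (factorSet P).ncard with h | h
  · rw [h]; simp
  · exact div_le_self (Nat.cast_nonneg _) (by exact_mod_cast h)

/-- Exponentially many roots force a linearly large average degree. -/
lemma linear_of_exp [Fintype F] (P : ℕ → F[X]) (hP : ∀ n, P n ≠ 0) (n₀ : ℕ)
    (h : ∀ n, n₀ ≤ n → 2 ^ (n - n₀) ≤ (rts (P n)).ncard) :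
    ∃ c : ℝ, 0 < c ∧ ∀ᶠ n : ℕ in atTop, c * n ≤ avgDeg (P n) := by
  set q := Fintype.card F with hq
  have hq1 : 1 < q := Fintype.one_lt_card
  refine ⟨1 / (16 * q), by positivity, ?_⟩
  rw [Filter.eventually_atTop]
  refine ⟨2 * (n₀ + q) + 8 * q, fun n hn => ?_⟩
  set L := n / (4 * q) with hL
  have hδ : 2 ^ (n - n₀) ≤ sqfreeDeg (P n) := (h n (by omega)).trans (ncard_rts_le_sqfreeDeg (hP n))
  have hL1 : 4 * q * L ≤ n := Nat.mul_div_le n (4 * q)
  have hL2 : n < 4 * q * (L + 1) := Nat.lt_mul_div_succ n (by omega)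
  have hLpos : 1 ≤ L := by
    rw [hL, Nat.le_div_iff_mul_le (by omega)]
    omega
  have h1 : L * q ^ (L + 1) ≤ 2 ^ (n - n₀) := by
    have a1 : L ≤ q ^ L := (Nat.lt_pow_self hq1).le
    have a2 : q ≤ 2 ^ q := Nat.lt_two_pow_self.le
    calc L * q ^ (L + 1) ≤ q ^ L * q ^ (L + 1) := Nat.mul_le_mul_right _ a1
      _ = q ^ (2 * L + 1) := by rw [← pow_add]; congr 1; ring
      _ ≤ (2 ^ q) ^ (2 * L + 1) := Nat.pow_le_pow_left a2 _
      _ = 2 ^ (q * (2 * L + 1)) := by rw [← pow_mul]
      _ ≤ 2 ^ (n - n₀) := by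
          refine Nat.pow_le_pow_right (by norm_num) ?_
          have : q * (2 * L + 1) = 2 * (q * L) + q := by ring
          have : 4 * q * L = 4 * (q * L) := by ring
          omega
  have h2 := mul_ncard_factorSet_le (hP n) L
  have h3 : L * (factorSet (P n)).ncard ≤ 2 * sqfreeDeg (P n) := by
    rw [← hq] at h2
    omega
  have hN : 0 < (factorSet (P n)).ncard := by
    rcases Nat.eq_zero_or_pos (factorSet (P n)).ncard with h0 | h0
    · rw [Set.ncard_eq_zero (factorSet_finite (hP n))] at h0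
      have : sqfreeDeg (P n) = 0 := by
        unfold sqfreeDeg
        rw [h0]
        simp
      have : 0 < 2 ^ (n - n₀) := by positivity
      omega
    · exact h0
  unfold avgDeg
  have hN' : (0 : ℝ) < (factorSet (P n)).ncard := by exact_mod_cast hN
  rw [le_div_iff₀ hN']
  have h3' : (L : ℝ) * (factorSet (P n)).ncard ≤ 2 * sqfreeDeg (P n) := by exact_mod_cast h3
  have h4 : (n : ℝ) ≤ 8 * q * L := by
    have : n ≤ 8 * q * L := by nlinarith
    exact_mod_cast this
  have hq0 : (0 : ℝ) < q := by positivity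
  have h5 : 1 / (16 * (q : ℝ)) * n ≤ L / 2 := by
    rw [div_mul_eq_mul_div, one_mul, div_le_iff₀ (by positivity)]
    linarith
  calc 1 / (16 * (q : ℝ)) * n * (factorSet (P n)).ncard
      ≤ L / 2 * (factorSet (P n)).ncard := mul_le_mul_of_nonneg_right h5 hN'.le
    _ ≤ sqfreeDeg (P n) := by linarith

/-- Doubling of finite sets away from a finite exceptional set. -/
lemma exp_of_unbounded {K : Type} (φ : K → K) (B : Finset K) (T : ℕ → Set K)
    (hfin : ∀ n, (T n).Finite)
    (hT : ∀ n, ∀ β ∈ T n, β ∉ B → ∃ x y, x ≠ y ∧ x ∈ T (n + 1) ∧ y ∈ T (n + 1) ∧ φ x = β ∧ φ y = β)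
    (hunb : ∃ n, 2 * B.card < (T n).ncard) :
    ∃ n₀, ∀ n, n₀ ≤ n → 2 ^ (n - n₀) ≤ (T n).ncard := by
  classical
  have hstep : ∀ n, 2 * (T n).ncard ≤ (T (n + 1)).ncard + 2 * B.card := by
    intro n
    rw [Set.ncard_eq_toFinset_card _ (hfin n), Set.ncard_eq_toFinset_card _ (hfin (n + 1))]
    have h1 := Finset.mul_card_image_le_card_of_maps_to (f := φ)
      (s := (hfin (n + 1)).toFinset.filter fun x => φ x ∈ (hfin n).toFinset \ B)
      (t := (hfin n).toFinset \ B) (fun a ha => (Finset.mem_filter.mp ha).2) 2 (by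
        intro β hβ
        rw [Finset.mem_sdiff, Set.Finite.mem_toFinset] at hβ
        obtain ⟨x, y, hxy, hx, hy, hx', hy'⟩ := hT n β hβ.1 hβ.2
        refine Finset.one_lt_card.mpr ⟨x, ?_, y, ?_, hxy⟩
        · simp [hx, hx', hβ.1, hβ.2]
        · simp [hy, hy', hβ.1, hβ.2])
    have h2 := Finset.card_filter_le (hfin (n + 1)).toFinset
      fun x => φ x ∈ (hfin n).toFinset \ B
    have h3 := Finset.le_card_sdiff B (hfin n).toFinset
    omega
  obtain ⟨n₀, hn₀⟩ := hunb
  refine ⟨n₀, fun n hn => ?_⟩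
  have : 2 * B.card + 2 ^ (n - n₀) ≤ (T n).ncard := by
    induction n, hn using Nat.le_induction with
    | base => simpa using hn₀
    | succ n hn ih =>
      have := hstep n
      rw [Nat.succ_sub hn, pow_succ]
      omega
  omega

end Pool.Agent.Lib.MP_fa793f_nt
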