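import Mathlib

/-!
Definitions for the problem on the average degree of the irreducible factors of the transforms of
a polynomial by a rational function.
-/

namespace Pool.Agent.Lib.MP_fa793f_nt

open Polynomial

variable {F : Type} [Field F]

/-- The rational function `g / h`. -/
noncomputable def frac (g h : F[X]) : RatFunc F :=
  algebraMap F[X] (RatFunc F) g / algebraMap F[X] (RatFunc F) h

/-- The composition `S ∘ R` of rational functions. -/
noncomputable def comp (S R : RatFunc F) : RatFunc F :=
  aeval R S.num / aeval R S.denom

/-- The iterates of `R`: `R^(0) = x` and `R^(n+1) = R^(n) ∘ R`. -/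
noncomputable def iter (R : RatFunc F) : ℕ → RatFunc F
  | 0 => RatFunc.X
  | n + 1 => comp (iter R n) R

/-- The solutions `x` of `S(x) = α` in the algebraic closure. -/
def solutions (S : RatFunc F) (α : AlgebraicClosure F) : Set (AlgebraicClosure F) :=
  {x | aeval x S.denom ≠ 0 ∧ aeval x S.num / aeval x S.denom = α}

/-- `α` is `R`-critical: the number of solutions of `R^(n)(x) = α` is bounded in `n`. -/
def Critical (R : RatFunc F) (α : AlgebraicClosure F) : Prop :=
  ∃ C : ℕ, ∀ n : ℕ, (solutions (iter R n) α).encard ≤ C

/-- `S(∞) = α`, for a finite value `α`. -/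
def ValueAtInfty (S : RatFunc F) (α : AlgebraicClosure F) : Prop :=
  S.denom.coeff (max S.num.natDegree S.denom.natDegree) ≠ 0 ∧
    algebraMap F (AlgebraicClosure F)
      (S.num.coeff (max S.num.natDegree S.denom.natDegree) /
        S.denom.coeff (max S.num.natDegree S.denom.natDegree)) = α

/-- The transform `f_R = h ^ k * f (g / h)`, where `k` is the degree of `f`. -/
noncomputable def transform (g h f : F[X]) : F[X] :=
  ∑ i ∈ Finset.range (f.natDegree + 1), C (f.coeff i) * g ^ i * h ^ (f.natDegree - i)

/-- The distinct irreducible factors of `P`, normalised to be monic. -/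
def factorSet (P : F[X]) : Set F[X] :=
  {p | p.Monic ∧ Irreducible p ∧ p ∣ P}

/-- The sum of the degrees of the distinct irreducible factors of `P`. -/
noncomputable def sqfreeDeg (P : F[X]) : ℕ :=
  ∑ᶠ p ∈ factorSet P, p.natDegree

/-- The average degree of the distinct irreducible factors of `P`. -/
noncomputable def avgDeg (P : F[X]) : ℝ :=
  (sqfreeDeg P : ℝ) / ((factorSet P).ncard : ℝ)

end Pool.Agent.Lib.MP_fa793f_nt
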