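import Pool.Agent.Lib.MP_fa793f_nt.Counting

namespace Pool.Agent.Lib.MP_fa793f_nt

open Polynomial Filter

variable {F : Type} [Field F]

/-- Homogenised substitution with a prescribed total degree `k`. -/
noncomputable def hom (g h : F[X]) (k : ℕ) (f : F[X]) : F[X] :=
  ∑ i ∈ Finset.range (k + 1), C (f.coeff i) * g ^ i * h ^ (k - i)

lemma transform_eq (g h f : F[X]) : transform g h f = hom g h f.natDegree f := rfl

lemma aeval_hom {L : Type} [Field L] [Algebra F L] (g h f : F[X]) {k : ℕ} (hk : f.natDegree ≤ k)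
    (x : L) (hx : aeval x h ≠ 0) :
    aeval x (hom g h k f) = aeval x h ^ k * aeval (aeval x g / aeval x h) f := by
  rw [aeval_eq_sum_range' (n := k + 1) (by omega) (aeval x g / aeval x h), Finset.mul_sum, hom,
    map_sum]
  refine Finset.sum_congr rfl fun i hi => ?_
  have hi : i ≤ k := by simpa [Nat.lt_succ_iff] using hi
  obtain ⟨j, rfl⟩ := Nat.exists_eq_add_of_le hi
  simp only [map_mul, aeval_C, map_pow, Nat.add_sub_cancel_left, Algebra.smul_def, div_pow,
    pow_add]
  field_simp

lemma aeval_hom_pole {L : Type} [Field L] [Algebra F L] (g h f : F[X]) (k : ℕ)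
    (x : L) (hx : aeval x h = 0) :
    aeval x (hom g h k f) = algebraMap F L (f.coeff k) * aeval x g ^ k := by
  rw [hom, map_sum, Finset.sum_eq_single k]
  · simp
  · intro i hi hik
    have hi : i ≤ k := by simpa [Nat.lt_succ_iff] using hi
    have : k - i ≠ 0 := by omega
    simp [hx, this]
  · simp

lemma aeval_X_eq (p : F[X]) : aeval (RatFunc.X : RatFunc F) p = algebraMap F[X] (RatFunc F) p := by
  rw [← RatFunc.algebraMap_X, aeval_algebraMap_apply, aeval_X_left_apply]

lemma algebraMap_hom (g h f : F[X]) (hh : h ≠ 0) {k : ℕ} (hk : f.natDegree ≤ k) :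
    algebraMap F[X] (RatFunc F) (hom g h k f) =
      algebraMap F[X] (RatFunc F) h ^ k * aeval (frac g h) f := by
  rw [← aeval_X_eq, aeval_hom g h f hk _ (by
    rw [aeval_X_eq]; exact RatFunc.algebraMap_ne_zero hh), aeval_X_eq, aeval_X_eq]
  rfl

lemma sub_C_mul_ne_zero {g h : F[X]} (hc : IsCoprime g h) (hd : 1 ≤ max g.natDegree h.natDegree)
    {L : Type} [Field L] [Algebra F L] (β : L) :
    g.map (algebraMap F L) - C β * h.map (algebraMap F L) ≠ 0 := by
  intro h0
  rw [sub_eq_zero] at h0
  have hc' := hc.map (mapRingHom (algebraMap F L))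
  simp only [coe_mapRingHom] at hc'
  have hu : IsUnit (h.map (algebraMap F L)) :=
    hc'.isUnit_of_dvd' (by rw [h0]; exact dvd_mul_left _ _) dvd_rfl
  have h1 : h.natDegree = 0 := by
    rw [← natDegree_map (algebraMap F L)]
    exact natDegree_eq_zero_of_isUnit hu
  have h2 : g.natDegree = 0 := by
    rw [← natDegree_map (algebraMap F L), h0]
    have := natDegree_C_mul_le β (h.map (algebraMap F L))
    rw [natDegree_map, h1] at this
    omega
  omega

lemma frac_ne_C {g h : F[X]} (hc : IsCoprime g h) (hh : h ≠ 0)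
    (hd : 1 ≤ max g.natDegree h.natDegree) : ¬ ∃ c, frac g h = RatFunc.C c := by
  rintro ⟨c, hc'⟩
  apply sub_C_mul_ne_zero hc hd (L := F) c
  rw [frac, div_eq_iff (RatFunc.algebraMap_ne_zero hh), ← RatFunc.algebraMap_C, ← map_mul] at hc'
  have := RatFunc.algebraMap_injective F hc'
  simp [this]

lemma aeval_ne_zero_of_ne_C {S : RatFunc F} (hS : ¬ ∃ c, S = RatFunc.C c) {f : F[X]}
    (hf : f ≠ 0) : aeval S f ≠ 0 := fun h0 =>
  RatFunc.transcendental_of_ne_C S hS ⟨f, hf, h0⟩

lemma hom_ne_zero {g h : F[X]} (hc : IsCoprime g h) (hh : h ≠ 0)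
    (hd : 1 ≤ max g.natDegree h.natDegree) {f : F[X]} (hf : f ≠ 0) {k : ℕ}
    (hk : f.natDegree ≤ k) : hom g h k f ≠ 0 := by
  intro h0
  have := algebraMap_hom g h f hh hk
  rw [h0, map_zero] at this
  exact mul_ne_zero (pow_ne_zero _ (RatFunc.algebraMap_ne_zero hh))
    (aeval_ne_zero_of_ne_C (frac_ne_C hc hh hd) hf) this.symm

lemma iterate_ne_zero {g h : F[X]} (hc : IsCoprime g h) (hh : h ≠ 0)
    (hd : 1 ≤ max g.natDegree h.natDegree) {f : F[X]} (hf : f ≠ 0) (n : ℕ) :
    (transform g h)^[n] f ≠ 0 := by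
  induction n with
  | zero => exact hf
  | succ n ih =>
    rw [Function.iterate_succ_apply']
    exact hom_ne_zero hc hh hd ih le_rfl

/-- `x` is a finite preimage of `β` under `g / h`. -/
def Pre (g h : F[X]) (x β : AlgebraicClosure F) : Prop :=
  aeval x h ≠ 0 ∧ aeval x g / aeval x h = β

lemma mem_rts_transform {g h : F[X]} (hc : IsCoprime g h) {f : F[X]} (hf : f ≠ 0)
    (x : AlgebraicClosure F) :
    x ∈ rts (transform g h f) ↔ aeval x h ≠ 0 ∧ aeval x g / aeval x h ∈ rts f := by
  simp only [rts, Set.mem_ofPred_eq, transform_eq]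
  by_cases hx : aeval x h = 0
  · rw [aeval_hom_pole g h f _ x hx]
    have hg : aeval x g ≠ 0 := (aeval_ne_zero_of_isCoprime hc x).resolve_right (not_not.mpr hx)
    have h1 : algebraMap F (AlgebraicClosure F) (f.coeff f.natDegree) ≠ 0 := by
      rw [_root_.map_ne_zero]
      exact leadingCoeff_ne_zero.mpr hf
    simp only [hx, ne_eq, not_true_eq_false, false_and, iff_false]
    exact mul_ne_zero h1 (pow_ne_zero _ hg)
  · rw [aeval_hom g h f le_rfl x hx]
    simp [hx]

lemma comp_eq {g h : F[X]} (hh : h ≠ 0) (S : RatFunc F) {k : ℕ} (h1 : S.num.natDegree ≤ k)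
    (h2 : S.denom.natDegree ≤ k) :
    comp S (frac g h) = algebraMap F[X] (RatFunc F) (hom g h k S.num) /
      algebraMap F[X] (RatFunc F) (hom g h k S.denom) := by
  rw [algebraMap_hom g h _ hh h1, algebraMap_hom g h _ hh h2,
    mul_div_mul_left _ _ (pow_ne_zero _ (RatFunc.algebraMap_ne_zero hh))]
  rfl

lemma mem_solutions_of_rep {T : RatFunc F} {A B : F[X]} (hB : B ≠ 0)
    (hT : T = algebraMap F[X] (RatFunc F) A / algebraMap F[X] (RatFunc F) B)
    {x α : AlgebraicClosure F} (hx : aeval x B ≠ 0) (hα : aeval x A = α * aeval x B) :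
    x ∈ solutions T α := by
  have h1 : T.denom ∣ B := (RatFunc.denom_dvd hB).mpr ⟨A, hT⟩
  have h2 : aeval x T.denom ≠ 0 := by
    obtain ⟨r, hr⟩ := h1
    intro h0
    apply hx
    rw [hr, map_mul, h0, zero_mul]
  have h3 := congrArg (aeval x) ((RatFunc.num_mul_eq_mul_denom_iff hB).mpr hT)
  rw [map_mul, map_mul, hα] at h3
  refine ⟨h2, ?_⟩
  rw [div_eq_iff h2]
  apply mul_right_cancel₀ hx
  rw [h3]
  ring

lemma rep_of_mem_solutions {T : RatFunc F} {A B : F[X]} (hB : B ≠ 0)
    (hT : T = algebraMap F[X] (RatFunc F) A / algebraMap F[X] (RatFunc F) B)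
    {x α : AlgebraicClosure F} (hx : x ∈ solutions T α) : aeval x A = α * aeval x B := by
  obtain ⟨h2, h4⟩ := hx
  have h3 := congrArg (aeval x) ((RatFunc.num_mul_eq_mul_denom_iff hB).mpr hT)
  rw [map_mul, map_mul] at h3
  rw [div_eq_iff h2] at h4
  apply mul_right_cancel₀ h2
  rw [← h3, h4]
  ring

lemma coeff_max_ne_zero {a b : F[X]} (hb : b ≠ 0) :
    a.coeff (max a.natDegree b.natDegree) ≠ 0 ∨ b.coeff (max a.natDegree b.natDegree) ≠ 0 := by
  rcases le_or_gt a.natDegree b.natDegree with h | h
  · rw [max_eq_right h]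
    exact Or.inr (leadingCoeff_ne_zero.mpr hb)
  · rw [max_eq_left h.le]
    refine Or.inl (leadingCoeff_ne_zero.mpr ?_)
    rintro rfl
    simp at h

lemma mem_solutions_comp {g h : F[X]} (hc : IsCoprime g h) (hh : h ≠ 0)
    (hd : 1 ≤ max g.natDegree h.natDegree) (S : RatFunc F) (x α : AlgebraicClosure F) :
    x ∈ solutions (comp S (frac g h)) α ↔
      (aeval x h ≠ 0 ∧ aeval x g / aeval x h ∈ solutions S α) ∨
        (aeval x h = 0 ∧ ValueAtInfty S α) := by
  set k := max S.num.natDegree S.denom.natDegree with hk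
  have h1 : S.num.natDegree ≤ k := le_max_left _ _
  have h2 : S.denom.natDegree ≤ k := le_max_right _ _
  have hT := comp_eq (g := g) hh S h1 h2
  have hB := hom_ne_zero hc hh hd S.denom_ne_zero h2
  by_cases hx : aeval x h = 0
  · have hg : aeval x g ≠ 0 := (aeval_ne_zero_of_isCoprime hc x).resolve_right (not_not.mpr hx)
    have hgk := pow_ne_zero k hg
    simp only [hx, ne_eq, not_true_eq_false, false_and, true_and, false_or]
    constructor
    · intro hs
      have h3 := rep_of_mem_solutions hB hT hs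
      rw [aeval_hom_pole _ _ _ _ _ hx, aeval_hom_pole _ _ _ _ _ hx, ← mul_assoc] at h3
      have h4 := mul_right_cancel₀ hgk h3
      have h5 : S.denom.coeff k ≠ 0 := by
        intro h0
        rw [h0, map_zero, mul_zero, _root_.map_eq_zero] at h4
        rcases coeff_max_ne_zero (a := S.num) S.denom_ne_zero with h6 | h6
        · exact h6 h4
        · exact h6 h0
      refine ⟨h5, ?_⟩
      rw [← hk, map_div₀, h4, mul_div_cancel_right₀ _ ((_root_.map_ne_zero _).mpr h5)]
    · rintro ⟨h5, h6⟩
      rw [← hk] at h5 h6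
      have h7 : algebraMap F (AlgebraicClosure F) (S.denom.coeff k) ≠ 0 :=
        (_root_.map_ne_zero _).mpr h5
      refine mem_solutions_of_rep hB hT ?_ ?_
      · rw [aeval_hom_pole _ _ _ _ _ hx]
        exact mul_ne_zero h7 hgk
      · rw [aeval_hom_pole _ _ _ _ _ hx, aeval_hom_pole _ _ _ _ _ hx, ← h6, map_div₀]
        field_simp
  · have hhk := pow_ne_zero k hx
    simp only [hx, ne_eq, not_false_eq_true, true_and, false_and, or_false]
    constructor
    · intro hs
      have h3 := rep_of_mem_solutions hB hT hs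
      rw [aeval_hom _ _ _ h1 _ hx, aeval_hom _ _ _ h2 _ hx, mul_left_comm] at h3
      have h4 := mul_left_cancel₀ hhk h3
      have h5 : aeval (aeval x g / aeval x h) S.denom ≠ 0 := by
        intro h0
        rw [h0, mul_zero] at h4
        rcases aeval_ne_zero_of_isCoprime S.isCoprime_num_denom (aeval x g / aeval x h) with h6 | h6
        · exact h6 h4
        · exact h6 h0
      exact ⟨h5, by rw [h4, mul_div_cancel_right₀ _ h5]⟩
    · rintro ⟨h5, h6⟩
      refine mem_solutions_of_rep hB hT ?_ ?_
      · rw [aeval_hom _ _ _ h2 _ hx]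
        exact mul_ne_zero hhk h5
      · rw [aeval_hom _ _ _ h1 _ hx, aeval_hom _ _ _ h2 _ hx, ← h6]
        field_simp

/-- All but finitely many points have two finite preimages. -/
def Two (g h : F[X]) : Prop :=
  ∃ B : Finset (AlgebraicClosure F), ∀ β, β ∉ B → ∃ x y, x ≠ y ∧ Pre g h x β ∧ Pre g h y β

/-- The map `g / h` is injective on the projective line. -/
def One (g h : F[X]) : Prop :=
  (∀ x y β, Pre g h x β → Pre g h y β → x = y) ∧
  (∀ x y : AlgebraicClosure F, aeval x h = 0 → aeval y h = 0 → x = y) ∧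
  (∀ x : AlgebraicClosure F, h.coeff (max g.natDegree h.natDegree) ≠ 0 →
    ¬ Pre g h x (algebraMap F _ (g.coeff (max g.natDegree h.natDegree) /
      h.coeff (max g.natDegree h.natDegree))))

lemma eq_of_natDegree_le_one {K : Type} [Field K] {p : K[X]} (hp : p ≠ 0) (hd : p.natDegree ≤ 1)
    {x y : K} (hx : p.eval x = 0) (hy : p.eval y = 0) : x = y := by
  by_contra hxy
  apply hp
  classical
  refine eq_zero_of_natDegree_lt_card_of_eval_eq_zero' p {x, y} ?_ ?_
  · intro z hz
    simp only [Finset.mem_insert, Finset.mem_singleton] at hz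
    rcases hz with rfl | rfl <;> assumption
  · rw [Finset.card_pair hxy]
    omega

lemma pre_iff {g h : F[X]} (hc : IsCoprime g h) (x β : AlgebraicClosure F) :
    Pre g h x β ↔ (g.map (algebraMap F (AlgebraicClosure F)) -
      C β * h.map (algebraMap F (AlgebraicClosure F))).eval x = 0 := by
  rw [eval_sub, eval_mul, eval_C, eval_map_algebraMap, eval_map_algebraMap, sub_eq_zero]
  constructor
  · rintro ⟨h1, h2⟩
    rwa [div_eq_iff h1] at h2
  · intro h1
    have h2 : aeval x h ≠ 0 := by
      intro h0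
      rw [h0, mul_zero] at h1
      rcases aeval_ne_zero_of_isCoprime hc x with h6 | h6
      · exact h6 h1
      · exact h6 h0
    exact ⟨h2, by rw [h1, mul_div_cancel_right₀ _ h2]⟩

lemma natDegree_sub_C_mul_le (g h : F[X]) (β : AlgebraicClosure F) :
    (g.map (algebraMap F (AlgebraicClosure F)) -
      C β * h.map (algebraMap F (AlgebraicClosure F))).natDegree ≤
        max g.natDegree h.natDegree := by
  refine (natDegree_sub_le _ _).trans (max_le_max natDegree_map_le ?_)
  exact (natDegree_C_mul_le _ _).trans natDegree_map_le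

lemma one_of_degree_one {g h : F[X]} (hc : IsCoprime g h) (hh : h ≠ 0)
    (hd : max g.natDegree h.natDegree = 1) : One g h := by
  refine ⟨fun x y β hx hy => ?_, fun x y hx hy => ?_, fun x h1 h2 => ?_⟩
  · rw [pre_iff hc] at hx hy
    exact eq_of_natDegree_le_one (sub_C_mul_ne_zero hc hd.ge β)
      ((natDegree_sub_C_mul_le g h β).trans hd.le) hx hy
  · refine eq_of_natDegree_le_one (p := h.map (algebraMap F (AlgebraicClosure F)))
      ((Polynomial.map_ne_zero_iff (algebraMap F _).injective).mpr hh) ?_ ?_ ?_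
    · rw [natDegree_map]
      omega
    · rwa [eval_map_algebraMap]
    · rwa [eval_map_algebraMap]
  · rw [pre_iff hc] at h2
    rw [hd] at h1 h2
    set P := g.map (algebraMap F (AlgebraicClosure F)) -
      C (algebraMap F (AlgebraicClosure F) (g.coeff 1 / h.coeff 1)) *
        h.map (algebraMap F (AlgebraicClosure F)) with hP
    have hP0 : P ≠ 0 := sub_C_mul_ne_zero hc hd.ge _
    have hP1 : P.natDegree ≤ 1 := (natDegree_sub_C_mul_le g h _).trans hd.le
    have hP2 : P.coeff 1 = 0 := by
      rw [hP, coeff_sub, coeff_C_mul, coeff_map, coeff_map, ← map_mul, div_mul_cancel₀ _ h1,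
        sub_self]
    have hP3 : P = C (P.coeff 0) := by
      rw [eq_X_add_C_of_natDegree_le_one hP1, hP2]
      simp
    rw [hP3, eval_C] at h2
    apply hP0
    rw [hP3, h2, C_0]

lemma two_of_wronskian {g h : F[X]} (hc : IsCoprime g h) (hh : h ≠ 0)
    (hd : 2 ≤ max g.natDegree h.natDegree)
    (hW : derivative g * h - g * derivative h ≠ 0) : Two g h := by
  classical
  set D := max g.natDegree h.natDegree with hD
  refine ⟨insert (algebraMap F _ (g.coeff D / h.coeff D))
    ((rts_finite hW).toFinset.image fun x => aeval x g / aeval x h), fun β hβ => ?_⟩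
  rw [Finset.mem_insert, not_or] at hβ
  obtain ⟨hβ1, hβ2⟩ := hβ
  set P := g.map (algebraMap F (AlgebraicClosure F)) -
      C β * h.map (algebraMap F (AlgebraicClosure F)) with hP
  have hP0 : P ≠ 0 := sub_C_mul_ne_zero hc (by omega) _
  have hP1 : D ≤ P.natDegree := by
    refine le_natDegree_of_ne_zero ?_
    rw [hP, coeff_sub, coeff_C_mul, coeff_map, coeff_map, sub_ne_zero]
    intro h0
    by_cases h1 : h.coeff D = 0
    · rw [h1, map_zero, mul_zero, _root_.map_eq_zero] at h0
      rcases coeff_max_ne_zero (a := g) hh with h6 | h6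
      · exact h6 h0
      · exact h6 h1
    · apply hβ1
      rw [map_div₀, h0, mul_div_cancel_right₀ _ ((_root_.map_ne_zero _).mpr h1)]
  have hsep : P.Separable := by
    rw [separable_def, isCoprime_iff_aeval_ne_zero_of_isAlgClosed (AlgebraicClosure F)
      (AlgebraicClosure F)]
    intro x
    by_contra hcon
    push Not at hcon
    obtain ⟨h1, h2⟩ := hcon
    rw [coe_aeval_eq_eval] at h1 h2
    have h3 := (pre_iff hc x β).mpr h1
    apply hβ2
    rw [Finset.mem_image]
    refine ⟨x, ?_, h3.2⟩
    rw [Set.Finite.mem_toFinset]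
    show aeval x (derivative g * h - g * derivative h) = 0
    rw [hP, eval_sub, eval_mul, eval_C, eval_map_algebraMap, eval_map_algebraMap,
      sub_eq_zero] at h1
    rw [hP, derivative_sub, derivative_C_mul, derivative_map, derivative_map, eval_sub, eval_mul,
      eval_C, eval_map_algebraMap, eval_map_algebraMap, sub_eq_zero] at h2
    rw [map_sub, map_mul, map_mul, h1, h2]
    ring
  have hcard : 1 < P.roots.toFinset.card := by
    rw [Multiset.toFinset_card_of_nodup (nodup_roots hsep), IsAlgClosed.card_roots_eq_natDegree]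
    omega
  obtain ⟨x, hx, y, hy, hxy⟩ := Finset.one_lt_card.mp hcard
  rw [Multiset.mem_toFinset, mem_roots hP0] at hx hy
  exact ⟨x, y, hxy, (pre_iff hc x β).mpr hx, (pre_iff hc y β).mpr hy⟩

lemma one_or_two [Fintype F] {g h : F[X]} (hc : IsCoprime g h) (hh : h ≠ 0)
    (hd : 1 ≤ max g.natDegree h.natDegree) : One g h ∨ Two g h := by
  obtain ⟨p, hp⟩ := CharP.exists F
  have hpp : p.Prime := CharP.char_is_prime F p
  have : Fact p.Prime := ⟨hpp⟩
  induction hD : max g.natDegree h.natDegree using Nat.strong_induction_on generalizing g h with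
  | _ D ih =>
    by_cases hW : derivative g * h - g * derivative h = 0
    · rw [sub_eq_zero] at hW
      have hg' : derivative g = 0 := by
        have h1 : g ∣ derivative g := hc.dvd_of_dvd_mul_right (hW ▸ dvd_mul_right _ _)
        by_contra h0
        have h2 := natDegree_le_of_dvd h1 h0
        have h3 : g.natDegree ≠ 0 := fun h4 => h0 (derivative_of_natDegree_zero h4)
        have := natDegree_derivative_lt h3
        omega
      have hh' : derivative h = 0 := by
        have h1 : h ∣ derivative h := hc.symm.dvd_of_dvd_mul_left (hW ▸ dvd_mul_left _ _)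
        by_contra h0
        have h2 := natDegree_le_of_dvd h1 h0
        have h3 : h.natDegree ≠ 0 := fun h4 => h0 (derivative_of_natDegree_zero h4)
        have := natDegree_derivative_lt h3
        omega
      obtain ⟨g₁, rfl⟩ : ∃ g₁, g = expand F p g₁ := ⟨_, (expand_contract p hg' hpp.ne_zero).symm⟩
      obtain ⟨h₁, rfl⟩ : ∃ h₁, h = expand F p h₁ := ⟨_, (expand_contract p hh' hpp.ne_zero).symm⟩
      have hc₁ : IsCoprime g₁ h₁ := (isCoprime_expand hpp.ne_zero).mp hc
      have hh₁ : h₁ ≠ 0 := by
        rintro rfl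
        simp at hh
      have hmax : max (expand F p g₁).natDegree (expand F p h₁).natDegree =
          max g₁.natDegree h₁.natDegree * p := by
        rw [natDegree_expand, natDegree_expand, max_mul_of_nonneg _ _ (Nat.zero_le p)]
      have hd₁ : 1 ≤ max g₁.natDegree h₁.natDegree := by
        rw [hmax] at hd
        rcases Nat.eq_zero_or_pos (max g₁.natDegree h₁.natDegree) with h0 | h0
        · rw [h0] at hd; omega
        · exact h0
      have hlt : max g₁.natDegree h₁.natDegree < D := by
        rw [← hD, hmax]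
        have := hpp.two_le
        nlinarith
      have hpre : ∀ x β, Pre (expand F p g₁) (expand F p h₁) x β ↔ Pre g₁ h₁ (x ^ p) β := by
        intro x β
        simp only [Pre, expand_aeval]
      have hinj : ∀ x y : AlgebraicClosure F, x ^ p = y ^ p → x = y := fun x y hxy =>
        frobenius_inj (AlgebraicClosure F) p hxy
      have hsurj : ∀ y : AlgebraicClosure F, ∃ x, x ^ p = y := fun y =>
        IsAlgClosed.exists_pow_nat_eq y hpp.pos
      rcases ih _ hlt hc₁ hh₁ hd₁ rfl with ⟨h1, h2, h3⟩ | ⟨B, hB⟩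
      · refine Or.inl ⟨fun x y β hx hy => ?_, fun x y hx hy => ?_, fun x hx => ?_⟩
        · exact hinj _ _ (h1 _ _ β ((hpre _ _).mp hx) ((hpre _ _).mp hy))
        · rw [expand_aeval] at hx hy
          exact hinj _ _ (h2 _ _ hx hy)
        · rw [hmax, coeff_expand_mul hpp.pos] at hx
          rw [hmax, coeff_expand_mul hpp.pos, coeff_expand_mul hpp.pos, hpre]
          exact h3 _ hx
      · refine Or.inr ⟨B, fun β hβ => ?_⟩
        obtain ⟨x, y, hxy, hx, hy⟩ := hB β hβ
        obtain ⟨x', rfl⟩ := hsurj x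
        obtain ⟨y', rfl⟩ := hsurj y
        exact ⟨x', y', fun h0 => hxy (by rw [h0]), (hpre _ _).mpr hx, (hpre _ _).mpr hy⟩
    · rcases hd.eq_or_lt with h1 | h1
      · exact Or.inl (one_of_degree_one hc hh h1.symm)
      · exact Or.inr (two_of_wronskian hc hh h1 hW)

end Pool.Agent.Lib.MP_fa793f_nt
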