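import Pool.Agent.Lib.MP_fa793f_nt.Dynamics

namespace Pool.Agent.Lib.MP_fa793f_nt

open Polynomial Filter

variable {F : Type} [Field F]

theorem dichotomy [Fintype F] {g h : F[X]} (hc : IsCoprime g h) (hh : h ≠ 0)
    (hd : 1 ≤ max g.natDegree h.natDegree) {f : F[X]} (hf : f ≠ 0) :
    (∃ c : ℝ, 0 < c ∧ ∀ᶠ n : ℕ in atTop, c * n ≤ avgDeg ((transform g h)^[n] f)) ↔
      ¬ ∃ M : ℕ, ∀ n : ℕ, sqfreeDeg ((transform g h)^[n] f) ≤ M := by
  have hne := iterate_ne_zero hc hh hd hf
  constructor
  · rintro ⟨c, hc0, hev⟩ ⟨M, hM⟩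
    have h1 : ∀ᶠ n : ℕ in atTop, (M : ℝ) < c * n :=
      (tendsto_natCast_atTop_atTop.const_mul_atTop hc0).eventually_gt_atTop _
    obtain ⟨n, h2, h3⟩ := (hev.and h1).exists
    have h4 := avgDeg_le ((transform g h)^[n] f)
    have h5 : (sqfreeDeg ((transform g h)^[n] f) : ℝ) ≤ M := by exact_mod_cast hM n
    linarith
  · intro hunb
    have hunb' : ∀ M : ℕ, ∃ n, M < (rts ((transform g h)^[n] f)).ncard := by
      intro M
      by_contra hcon
      push Not at hcon
      exact hunb ⟨_, fun n => sqfreeDeg_le_of_rts (hne n) M (hcon n)⟩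
    rcases one_or_two hc hh hd with ⟨h1, -, -⟩ | ⟨B, hB⟩
    · exfalso
      obtain ⟨n, hn⟩ := hunb' (rts f).ncard
      have : ∀ n, (rts ((transform g h)^[n] f)).ncard ≤ (rts f).ncard := by
        intro n
        induction n with
        | zero => exact le_rfl
        | succ n ih =>
          refine le_trans ?_ ih
          rw [Function.iterate_succ_apply']
          refine Set.ncard_le_ncard_of_injOn (fun x => aeval x g / aeval x h) ?_ ?_
            (rts_finite (hne n))
          · intro x hx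
            exact ((mem_rts_transform hc (hne n) x).mp hx).2
          · intro x hx y hy hxy
            exact h1 x y _ ⟨((mem_rts_transform hc (hne n) x).mp hx).1, rfl⟩
              ⟨((mem_rts_transform hc (hne n) y).mp hy).1, hxy.symm⟩
      exact absurd (this n) (not_le.mpr hn)
    · obtain ⟨n₀, hn₀⟩ := exp_of_unbounded (fun x => aeval x g / aeval x h) B
        (fun n => rts ((transform g h)^[n] f)) (fun n => rts_finite (hne n)) (by
          intro n β hβ hβB
          obtain ⟨x, y, hxy, hx, hy⟩ := hB β hβB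
          refine ⟨x, y, hxy, ?_, ?_, hx.2, hy.2⟩
          · rw [Function.iterate_succ_apply', mem_rts_transform hc (hne n), hx.2]
            exact ⟨hx.1, hβ⟩
          · rw [Function.iterate_succ_apply', mem_rts_transform hc (hne n), hy.2]
            exact ⟨hy.1, hβ⟩) (hunb' _)
      exact linear_of_exp _ hne n₀ hn₀

lemma mem_solutions_X (x α : AlgebraicClosure F) :
    x ∈ solutions (RatFunc.X : RatFunc F) α ↔ x = α := by
  simp [solutions]

theorem linear_of_noncritical [Fintype F] {g h : F[X]} (hc : IsCoprime g h) (hh : h ≠ 0)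
    (hd : 1 ≤ max g.natDegree h.natDegree) {f : F[X]} (hf : f ≠ 0) {α : AlgebraicClosure F}
    (hα : aeval α f = 0) (hcrit : ¬ Critical (frac g h) α)
    (hinf : ∀ j, ¬ ValueAtInfty (iter (frac g h) j) α) :
    ∃ c : ℝ, 0 < c ∧ ∀ᶠ n : ℕ in atTop, c * n ≤ avgDeg ((transform g h)^[n] f) := by
  have hne := iterate_ne_zero hc hh hd hf
  rw [dichotomy hc hh hd hf]
  rintro ⟨M, hM⟩
  have hsub : ∀ n, solutions (iter (frac g h) n) α ⊆ rts ((transform g h)^[n] f) := by
    intro n
    induction n with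
    | zero =>
      intro x hx
      rw [iter, mem_solutions_X] at hx
      rw [hx]
      exact hα
    | succ n ih =>
      intro x hx
      rw [iter, mem_solutions_comp hc hh hd] at hx
      rw [Function.iterate_succ_apply', mem_rts_transform hc (hne n)]
      rcases hx with hx | hx
      · exact ⟨hx.1, ih hx.2⟩
      · exact (hinf n hx.2).elim
  refine hcrit ⟨M, fun n => (Set.encard_le_encard (hsub n)).trans ?_⟩
  rw [← (rts_finite (hne n)).cast_ncard_eq]
  exact_mod_cast (ncard_rts_le_sqfreeDeg (hne n)).trans (hM n)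

lemma max_natDegree_pos {S : RatFunc F} (hS : ¬ ∃ c, S = RatFunc.C c) :
    1 ≤ max S.num.natDegree S.denom.natDegree := by
  by_contra hcon
  apply hS
  have h1 : S.num.natDegree = 0 := by omega
  have h2 : S.denom.natDegree = 0 := by omega
  refine ⟨S.num.coeff 0 / S.denom.coeff 0, ?_⟩
  conv_lhs => rw [← S.num_div_denom, eq_C_of_natDegree_eq_zero h1, eq_C_of_natDegree_eq_zero h2]
  rw [RatFunc.algebraMap_C, RatFunc.algebraMap_C, map_div₀]

lemma frac_num_denom (S : RatFunc F) : frac S.num S.denom = S := S.num_div_denom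

lemma iter_ne_C {g h : F[X]} (hc : IsCoprime g h) (hh : h ≠ 0)
    (hd : 1 ≤ max g.natDegree h.natDegree) (n : ℕ) : ¬ ∃ c, iter (frac g h) n = RatFunc.C c := by
  induction n with
  | zero =>
    have := frac_ne_C (g := (X : F[X])) (h := 1) isCoprime_one_right one_ne_zero (by simp)
    simpa [frac, iter] using this
  | succ n ih =>
    rintro ⟨c, hc'⟩
    apply ih
    have hR := frac_ne_C hc hh hd
    set S := iter (frac g h) n
    rw [iter, comp, div_eq_iff (aeval_ne_zero_of_ne_C hR S.denom_ne_zero)] at hc'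
    have h1 : aeval (frac g h) (S.num - C c * S.denom) = 0 := by
      rw [map_sub, map_mul, aeval_C, hc', RatFunc.algebraMap_eq_C, sub_self]
    have h2 : S.num - C c * S.denom = 0 := by
      by_contra h0
      exact aeval_ne_zero_of_ne_C hR h0 h1
    refine ⟨c, ?_⟩
    rw [sub_eq_zero] at h2
    conv_lhs => rw [← S.num_div_denom, h2]
    rw [map_mul, mul_div_cancel_right₀ _ (RatFunc.algebraMap_ne_zero S.denom_ne_zero),
      RatFunc.algebraMap_C]

lemma solutions_finite {S : RatFunc F} (hS : ¬ ∃ c, S = RatFunc.C c) (α : AlgebraicClosure F) :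
    (solutions S α).Finite := by
  classical
  have h0 := sub_C_mul_ne_zero S.isCoprime_num_denom (max_natDegree_pos hS) α
  refine (Finset.finite_toSet (S.num.map (algebraMap F (AlgebraicClosure F)) -
      C α * S.denom.map (algebraMap F (AlgebraicClosure F))).roots.toFinset).subset ?_
  intro x hx
  rw [Finset.mem_coe, Multiset.mem_toFinset, mem_roots h0]
  exact (pre_iff S.isCoprime_num_denom x α).mp hx

lemma critical_of_one [Fintype F] {g h : F[X]} (hc : IsCoprime g h) (hh : h ≠ 0)
    (hd : 1 ≤ max g.natDegree h.natDegree) (h1 : One g h) (α : AlgebraicClosure F) :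
    Critical (frac g h) α := by
  have key : ∀ n, ∀ x y β, x ∈ solutions (iter (frac g h) n) β →
      y ∈ solutions (iter (frac g h) n) β → x = y := by
    intro n
    induction n with
    | zero =>
      intro x y β hx hy
      rw [iter, mem_solutions_X] at hx hy
      rw [hx, hy]
    | succ n ih =>
      set S := iter (frac g h) n with hS
      have hone : One S.num S.denom := by
        rcases one_or_two S.isCoprime_num_denom S.denom_ne_zero
          (max_natDegree_pos (iter_ne_C hc hh hd n)) with h2 | ⟨B, hB⟩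
        · exact h2
        · obtain ⟨β, hβ⟩ := Infinite.exists_notMem_finset B
          obtain ⟨x, y, hxy, hx, hy⟩ := hB β hβ
          exact (hxy (ih x y β hx hy)).elim
      intro x y β hx hy
      rw [iter, mem_solutions_comp hc hh hd, ← hS] at hx hy
      rcases hx with hx | hx <;> rcases hy with hy | hy
      · exact h1.1 x y _ ⟨hx.1, rfl⟩ ⟨hy.1, ih _ _ β hy.2 hx.2⟩
      · exact (hone.2.2 _ hy.2.1 (by rw [hy.2.2]; exact hx.2)).elim
      · exact (hone.2.2 _ hx.2.1 (by rw [hx.2.2]; exact hy.2)).elim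
      · exact h1.2.1 x y hx.1 hy.1
  refine ⟨1, fun n => ?_⟩
  rw [Nat.cast_one, Set.encard_le_one_iff]
  exact fun x y hx hy => key n x y α hx hy

theorem linear_true_iterate [Fintype F] {g h : F[X]} (hc : IsCoprime g h) (hh : h ≠ 0)
    (hd : 1 ≤ max g.natDegree h.natDegree) {f : F[X]} (hf : f ≠ 0) {α : AlgebraicClosure F}
    (hα : aeval α f = 0) (hcrit : ¬ Critical (frac g h) α) :
    ∃ c : ℝ, 0 < c ∧ ∀ᶠ n : ℕ in atTop,
      c * n ≤ avgDeg (aeval (iter (frac g h) n) f : RatFunc F).num := by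
  have hne : ∀ n, (aeval (iter (frac g h) n) f : RatFunc F).num ≠ 0 := fun n =>
    RatFunc.num_ne_zero (aeval_ne_zero_of_ne_C (iter_ne_C hc hh hd n) hf)
  have hfin : ∀ n, (solutions (iter (frac g h) n) α).Finite := fun n =>
    solutions_finite (iter_ne_C hc hh hd n) α
  have hsub : ∀ n, solutions (iter (frac g h) n) α ⊆
      rts (aeval (iter (frac g h) n) f : RatFunc F).num := by
    intro n x hx
    set S := iter (frac g h) n
    have hb : S.denom ^ f.natDegree ≠ 0 := pow_ne_zero _ S.denom_ne_zero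
    have h1 : (aeval S f : RatFunc F) =
        algebraMap F[X] (RatFunc F) (hom S.num S.denom f.natDegree f) /
          algebraMap F[X] (RatFunc F) (S.denom ^ f.natDegree) := by
      rw [algebraMap_hom _ _ _ S.denom_ne_zero le_rfl, frac_num_denom, map_pow,
        mul_div_cancel_left₀ _ (pow_ne_zero _ (RatFunc.algebraMap_ne_zero S.denom_ne_zero))]
    have h2 := congrArg (aeval x) ((RatFunc.num_mul_eq_mul_denom_iff hb).mpr h1)
    rw [map_mul, map_mul, aeval_hom _ _ _ le_rfl x hx.1, hx.2, hα, mul_zero, zero_mul,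
      map_pow] at h2
    exact (mul_eq_zero.mp h2).resolve_right (pow_ne_zero _ hx.1)
  rcases one_or_two hc hh hd with h1 | ⟨B, hB⟩
  · exact (hcrit (critical_of_one hc hh hd h1 α)).elim
  · obtain ⟨n₀, hn₀⟩ := exp_of_unbounded (fun x => aeval x g / aeval x h) B
      (fun n => solutions (iter (frac g h) n) α) hfin (by
        intro n β hβ hβB
        obtain ⟨x, y, hxy, hx, hy⟩ := hB β hβB
        refine ⟨x, y, hxy, ?_, ?_, hx.2, hy.2⟩
        · rw [iter, mem_solutions_comp hc hh hd, hx.2]
          exact Or.inl ⟨hx.1, hβ⟩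
        · rw [iter, mem_solutions_comp hc hh hd, hy.2]
          exact Or.inl ⟨hy.1, hβ⟩) (by
        by_contra hcon
        push Not at hcon
        refine hcrit ⟨2 * B.card, fun n => ?_⟩
        rw [← (hfin n).cast_ncard_eq]
        exact_mod_cast hcon n)
    exact linear_of_exp _ hne n₀ fun n hn =>
      (hn₀ n hn).trans (Set.ncard_le_ncard (hsub n) (rts_finite (hne n)))

lemma transform_X (h : F[X]) : transform X h X = X := by
  simp [transform, Finset.sum_range_succ]

lemma factorSet_X : factorSet (X : F[X]) = {X} := by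
  ext p
  simp only [factorSet, Set.mem_ofPred_eq, Set.mem_singleton_iff]
  constructor
  · rintro ⟨h1, h2, h3⟩
    exact eq_of_monic_of_associated h1 monic_X (h2.associated_of_dvd irreducible_X h3)
  · rintro rfl
    exact ⟨monic_X, irreducible_X, dvd_rfl⟩

lemma avgDeg_X : avgDeg (X : F[X]) = 1 := by
  simp [avgDeg, sqfreeDeg, factorSet_X]

lemma num_denom_frac {g h : F[X]} (hc : IsCoprime g h) (hm : h.Monic) :
    (frac g h).num = g ∧ (frac g h).denom = h := by
  have h1 : (frac g h).num * h = g * (frac g h).denom :=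
    (RatFunc.num_mul_eq_mul_denom_iff hm.ne_zero).mpr rfl
  have h2 : (frac g h).denom ∣ h := RatFunc.denom_div_dvd g h
  have h3 : h ∣ (frac g h).denom := hc.symm.dvd_of_dvd_mul_left (h1 ▸ dvd_mul_left _ _)
  have h4 : (frac g h).denom = h :=
    eq_of_monic_of_associated (RatFunc.monic_denom _) hm (associated_of_dvd_dvd h2 h3)
  rw [h4] at h1
  exact ⟨mul_right_cancel₀ hm.ne_zero h1, h4⟩

lemma coprime_ex : IsCoprime (X : (ZMod 2)[X]) (X ^ 2 + X + 1) :=
  ⟨-(X + 1), 1, by ring⟩

lemma natDegree_ex : (X ^ 2 + X + 1 : (ZMod 2)[X]).natDegree = 2 := by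
  compute_degree!

lemma ne_zero_ex : (X ^ 2 + X + 1 : (ZMod 2)[X]) ≠ 0 := by
  intro h
  have := natDegree_ex
  rw [h] at this
  simp at this

lemma not_critical_ex : ¬ Critical (frac (X : (ZMod 2)[X]) (X ^ 2 + X + 1)) 0 := by
  classical
  have hd : 1 ≤ max (X : (ZMod 2)[X]).natDegree (X ^ 2 + X + 1 : (ZMod 2)[X]).natDegree := by
    simp
  have hc := coprime_ex
  have hh := ne_zero_ex
  have h2 : (2 : AlgebraicClosure (ZMod 2)) = 0 := CharTwo.two_eq_zero
  have hfin : ∀ n, (solutions (iter (frac (X : (ZMod 2)[X]) (X ^ 2 + X + 1)) n) 0 \ {0, 1}).Finite :=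
    fun n => (solutions_finite (iter_ne_C hc hh hd n) 0).subset Set.sdiff_subset
  have hpre : ∀ (x β : AlgebraicClosure (ZMod 2)), β ≠ 0 → β ≠ 1 →
      β * x ^ 2 + (β + 1) * x + β = 0 →
      Pre (X : (ZMod 2)[X]) (X ^ 2 + X + 1) x β ∧ x ≠ 0 ∧ x ≠ 1 := by
    intro x β hβ0 hβ1 hx
    refine ⟨?_, ?_, ?_⟩
    · rw [pre_iff hc]
      simp only [Polynomial.map_X, Polynomial.map_add, Polynomial.map_pow, Polynomial.map_one,
        eval_sub, eval_X, eval_mul, eval_C, eval_add, eval_pow, eval_one]
      linear_combination (-1) * hx + x * h2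
    · rintro rfl
      apply hβ0
      linear_combination hx
    · rintro rfl
      apply hβ1
      linear_combination hx - (β + 1) * h2
  have hval : ValueAtInfty (iter (frac (X : (ZMod 2)[X]) (X ^ 2 + X + 1)) 1) 0 := by
    have e : iter (frac (X : (ZMod 2)[X]) (X ^ 2 + X + 1)) 1 = frac X (X ^ 2 + X + 1) := by
      simp [iter, comp]
    have hm : (X ^ 2 + X + 1 : (ZMod 2)[X]).Monic := by monicity!
    obtain ⟨e1, e2⟩ := num_denom_frac hc hm
    rw [e, ValueAtInfty, e1, e2, natDegree_ex, natDegree_X]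
    simp [coeff_X, coeff_one]
  obtain ⟨n₀, hn₀⟩ := exp_of_unbounded
    (fun x => aeval x (X : (ZMod 2)[X]) / aeval x (X ^ 2 + X + 1 : (ZMod 2)[X])) ∅
    (fun n => solutions (iter (frac (X : (ZMod 2)[X]) (X ^ 2 + X + 1)) n) 0 \ {0, 1}) hfin (by
      intro n β hβ _
      obtain ⟨hβ, hβ'⟩ := hβ
      simp only [Set.mem_insert_iff, Set.mem_singleton_iff, not_or] at hβ'
      obtain ⟨hβ0, hβ1⟩ := hβ'
      obtain ⟨x, hx⟩ := IsAlgClosed.exists_root (C β * X ^ 2 + C (β + 1) * X + C β) (by
        rw [degree_quadratic hβ0]; decide)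
      simp only [IsRoot.def, eval_add, eval_mul, eval_C, eval_pow, eval_X] at hx
      have hy : β * (x + (β + 1) / β) ^ 2 + (β + 1) * (x + (β + 1) / β) + β = 0 := by
        have e : β * ((β + 1) / β) = β + 1 := by field_simp
        linear_combination hx + ((β + 1) / β) * e + (β * x * ((β + 1) / β) +
          (β + 1) * ((β + 1) / β)) * h2
      obtain ⟨p1, p2, p3⟩ := hpre _ _ hβ0 hβ1 hx
      obtain ⟨q1, q2, q3⟩ := hpre _ _ hβ0 hβ1 hy
      refine ⟨x, x + (β + 1) / β, ?_, ⟨?_, by simp [p2, p3]⟩, ⟨?_, by simp [q2, q3]⟩, p1.2, q1.2⟩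
      · intro h0
        have : (β + 1) / β = 0 := by linear_combination -h0
        rw [div_eq_zero_iff] at this
        rcases this with h3 | h3
        · exact hβ1 (by linear_combination h3 - h2)
        · exact hβ0 h3
      · rw [iter, mem_solutions_comp hc hh hd, p1.2]
        exact Or.inl ⟨p1.1, hβ⟩
      · rw [iter, mem_solutions_comp hc hh hd, q1.2]
        exact Or.inl ⟨q1.1, hβ⟩) (by
      obtain ⟨x, hx⟩ := IsAlgClosed.exists_aeval_eq_zero (AlgebraicClosure (ZMod 2))
        (X ^ 2 + X + 1 : (ZMod 2)[X]) (by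
          rw [degree_eq_natDegree hh, natDegree_ex]; decide)
      refine ⟨2, ?_⟩
      rw [Finset.card_empty, mul_zero, Set.ncard_pos (hfin 2)]
      refine ⟨x, ?_, ?_⟩
      · rw [iter, mem_solutions_comp hc hh hd]
        exact Or.inr ⟨hx, hval⟩
      · simp only [map_add, map_pow, aeval_X, map_one] at hx
        simp only [Set.mem_insert_iff, Set.mem_singleton_iff, not_or]
        constructor
        · rintro rfl
          simp at hx
        · rintro rfl
          exact one_ne_zero (α := AlgebraicClosure (ZMod 2)) (by linear_combination hx - h2))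
  rintro ⟨M, hM⟩
  have h3 := hn₀ (n₀ + M) (by omega)
  have h4 := (Set.encard_le_encard (Set.sdiff_subset (t := {0, 1}))).trans (hM (n₀ + M))
  rw [← (hfin _).cast_ncard_eq] at h4
  have h5 : (solutions (iter (frac (X : (ZMod 2)[X]) (X ^ 2 + X + 1)) (n₀ + M)) 0 \ {0, 1}).ncard
      ≤ M := by exact_mod_cast h4
  rw [Nat.add_sub_cancel_left] at h3
  have := Nat.lt_two_pow_self (n := M)
  omega

end Pool.Agent.Lib.MP_fa793f_nt
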