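import Pool.Agent.Lib.MP_fa793f_nt.Defs

/-!
The degree and the `p`-reduction of a rational function.
-/

namespace Pool.Agent.Lib.MP_fa793f_nt

variable {F : Type} [Field F]

/-- The degree of a rational function: the larger of the degrees of its reduced numerator and
denominator. -/
noncomputable def deg (S : RatFunc F) : ℕ :=
  max S.num.natDegree S.denom.natDegree

/-- `S` is the `p`-reduction of `R`, where `p` is the characteristic: `R = S ^ (p ^ e)` for some
`e`, and `S` is not a `p`-th power. -/
def IsReduction (S R : RatFunc F) : Prop :=
  (∃ e : ℕ, R = S ^ ringChar F ^ e) ∧ ¬ ∃ T : RatFunc F, S = T ^ ringChar F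

end Pool.Agent.Lib.MP_fa793f_nt
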