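import Pool.Agent.Lib.MP_fa793f_nt.Main
import Pool.Agent.Lib.MP_fa793f_nt.SharpDefs

/-!
The sharp constant in the linear lower bound.
-/

namespace Pool.Agent.Lib.MP_fa793f_nt

open Polynomial Filter Topology

variable {F : Type} [Field F]

lemma num_denom_pow (S : RatFunc F) (k : ℕ) :
    (S ^ k).num = S.num ^ k ∧ (S ^ k).denom = S.denom ^ k := by
  have h : S ^ k = frac (S.num ^ k) (S.denom ^ k) := by
    rw [frac, map_pow, map_pow, ← div_pow, S.num_div_denom]
  rw [h]
  exact num_denom_frac S.isCoprime_num_denom.pow ((RatFunc.monic_denom S).pow k)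

lemma deg_pow (S : RatFunc F) (k : ℕ) : deg (S ^ k) = k * deg S := by
  rw [deg, (num_denom_pow S k).1, (num_denom_pow S k).2, natDegree_pow, natDegree_pow, deg,
    mul_max_of_nonneg _ _ (Nat.zero_le k)]

lemma mem_solutions_pow (S : RatFunc F) {k : ℕ} (hk : k ≠ 0) (x β : AlgebraicClosure F) :
    x ∈ solutions (S ^ k) β ↔
      aeval x S.denom ≠ 0 ∧ (aeval x S.num / aeval x S.denom) ^ k = β := by
  simp only [solutions, Set.mem_ofPred_eq, (num_denom_pow S k).1, (num_denom_pow S k).2, map_pow,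
    div_pow, ne_eq, pow_eq_zero_iff hk]

lemma pre_iff_solutions {g h : F[X]} (hc : IsCoprime g h) (hh : h ≠ 0)
    (x β : AlgebraicClosure F) : Pre g h x β ↔ x ∈ solutions (frac g h) β := by
  constructor
  · rintro ⟨h1, h2⟩
    exact mem_solutions_of_rep hh rfl h1 ((div_eq_iff h1).1 h2)
  · intro hx
    have := rep_of_mem_solutions hh rfl hx
    rw [pre_iff hc, eval_sub, eval_mul, eval_C, eval_map_algebraMap, eval_map_algebraMap, this,
      sub_self]

lemma exists_reduction [Fintype F] (R : RatFunc F) (hR : 1 ≤ deg R) :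
    ∃ S, IsReduction S R := by
  have hp : (ringChar F).Prime := CharP.char_is_prime F (ringChar F)
  induction hD : deg R using Nat.strong_induction_on generalizing R with
  | _ D ih =>
    by_cases h : ∃ T : RatFunc F, R = T ^ ringChar F
    · obtain ⟨T, rfl⟩ := h
      rw [deg_pow] at hR hD
      have h1 : 1 ≤ deg T := Nat.pos_of_ne_zero fun h0 => by simp [h0] at hR
      have h2 : deg T < D := by
        have := hp.two_le
        nlinarith
      obtain ⟨S, ⟨e, he⟩, hS⟩ := ih _ h2 T h1 rfl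
      exact ⟨S, ⟨e + 1, by rw [he, ← pow_mul, pow_succ]⟩, hS⟩
    · exact ⟨R, ⟨0, by simp⟩, h⟩

lemma exists_pow_of_derivative [Fintype F] {a : F[X]} (ha : derivative a = 0) :
    ∃ b : F[X], a = b ^ ringChar F := by
  have hp : (ringChar F).Prime := CharP.char_is_prime F (ringChar F)
  have : Fact (ringChar F).Prime := ⟨hp⟩
  refine ⟨(contract (ringChar F) a).map (frobeniusEquiv F (ringChar F)).symm, ?_⟩
  rw [← polynomial_expand_eq, expand_contract _ ha hp.ne_zero]

lemma wronskian_ne_zero [Fintype F] {S : RatFunc F} (hS : ¬ ∃ T : RatFunc F, S = T ^ ringChar F) :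
    derivative S.num * S.denom - S.num * derivative S.denom ≠ 0 := by
  intro hW
  rw [sub_eq_zero] at hW
  have hc := S.isCoprime_num_denom
  have key : ∀ a : F[X], a ∣ derivative a → derivative a = 0 := by
    intro a h1
    by_contra h0
    have h2 := natDegree_le_of_dvd h1 h0
    have h3 : a.natDegree ≠ 0 := fun h4 => h0 (derivative_of_natDegree_zero h4)
    have := natDegree_derivative_lt h3
    omega
  obtain ⟨a, ha⟩ := exists_pow_of_derivative
    (key _ (hc.dvd_of_dvd_mul_right (hW ▸ dvd_mul_right _ _)))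
  obtain ⟨b, hb⟩ := exists_pow_of_derivative
    (key _ (hc.symm.dvd_of_dvd_mul_left (hW ▸ dvd_mul_left _ _)))
  refine hS ⟨frac a b, ?_⟩
  rw [frac, div_pow, ← map_pow, ← map_pow, ← ha, ← hb, S.num_div_denom]

/-- All but finitely many points have as many finite preimages as the degree. -/
lemma many_of_wronskian {g h : F[X]} (hc : IsCoprime g h) (hh : h ≠ 0)
    (hd : 1 ≤ max g.natDegree h.natDegree)
    (hW : derivative g * h - g * derivative h ≠ 0) :
    ∃ B : Finset (AlgebraicClosure F), ∀ β, β ∉ B → ∃ s : Finset (AlgebraicClosure F),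
      max g.natDegree h.natDegree ≤ s.card ∧ ∀ x ∈ s, Pre g h x β := by
  classical
  set D := max g.natDegree h.natDegree with hD
  refine ⟨insert (algebraMap F _ (g.coeff D / h.coeff D))
    ((rts_finite hW).toFinset.image fun x => aeval x g / aeval x h), fun β hβ => ?_⟩
  rw [Finset.mem_insert, not_or] at hβ
  obtain ⟨hβ1, hβ2⟩ := hβ
  set P := g.map (algebraMap F (AlgebraicClosure F)) -
      C β * h.map (algebraMap F (AlgebraicClosure F)) with hP
  have hP0 : P ≠ 0 := sub_C_mul_ne_zero hc hd _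
  have hP1 : D ≤ P.natDegree := by
    refine le_natDegree_of_ne_zero ?_
    rw [hP, coeff_sub, coeff_C_mul, coeff_map, coeff_map, sub_ne_zero]
    intro h0
    by_cases h1 : h.coeff D = 0
    · rw [h1, map_zero, mul_zero, _root_.map_eq_zero] at h0
      rcases coeff_max_ne_zero (a := g) hh with h6 | h6
      · exact h6 h0
      · exact h6 h1
    · apply hβ1
      rw [map_div₀, h0, mul_div_cancel_right₀ _ ((_root_.map_ne_zero _).mpr h1)]
  have hsep : P.Separable := by
    rw [separable_def, isCoprime_iff_aeval_ne_zero_of_isAlgClosed (AlgebraicClosure F)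
      (AlgebraicClosure F)]
    intro x
    by_contra hcon
    push Not at hcon
    obtain ⟨h1, h2⟩ := hcon
    rw [coe_aeval_eq_eval] at h1 h2
    have h3 := (pre_iff hc x β).mpr h1
    apply hβ2
    rw [Finset.mem_image]
    refine ⟨x, ?_, h3.2⟩
    rw [Set.Finite.mem_toFinset]
    show aeval x (derivative g * h - g * derivative h) = 0
    rw [hP, eval_sub, eval_mul, eval_C, eval_map_algebraMap, eval_map_algebraMap,
      sub_eq_zero] at h1
    rw [hP, derivative_sub, derivative_C_mul, derivative_map, derivative_map, eval_sub, eval_mul,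
      eval_C, eval_map_algebraMap, eval_map_algebraMap, sub_eq_zero] at h2
    rw [map_sub, map_mul, map_mul, h1, h2]
    ring
  refine ⟨P.roots.toFinset, ?_, fun x hx => ?_⟩
  · rw [Multiset.toFinset_card_of_nodup (nodup_roots hsep), IsAlgClosed.card_roots_eq_natDegree]
    exact hP1
  · rw [Multiset.mem_toFinset, mem_roots hP0] at hx
    exact (pre_iff hc x β).mpr hx

lemma deg_pos_of_reduction {g h : F[X]} (hc : IsCoprime g h) (hh : h ≠ 0)
    (hd : 1 ≤ max g.natDegree h.natDegree) {S : RatFunc F} (hS : IsReduction S (frac g h)) :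
    1 ≤ deg S := by
  obtain ⟨⟨e, he⟩, -⟩ := hS
  have h1 : 1 ≤ deg (frac g h) := max_natDegree_pos (frac_ne_C hc hh hd)
  rw [he, deg_pow] at h1
  exact Nat.pos_of_ne_zero fun h0 => by simp [h0] at h1

lemma many_of_reduction [Fintype F] {g h : F[X]} (hc : IsCoprime g h) (hh : h ≠ 0)
    (hd : 1 ≤ max g.natDegree h.natDegree) {S : RatFunc F} (hS : IsReduction S (frac g h)) :
    ∃ B : Finset (AlgebraicClosure F), ∀ β, β ∉ B → ∃ s : Finset (AlgebraicClosure F),
      deg S ≤ s.card ∧ ∀ x ∈ s, Pre g h x β := by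
  classical
  have hp : (ringChar F).Prime := CharP.char_is_prime F (ringChar F)
  obtain ⟨B, hB⟩ := many_of_wronskian S.isCoprime_num_denom S.denom_ne_zero
    (deg_pos_of_reduction hc hh hd hS) (wronskian_ne_zero hS.2)
  obtain ⟨⟨e, he⟩, -⟩ := hS
  have hk : ringChar F ^ e ≠ 0 := pow_ne_zero _ hp.ne_zero
  refine ⟨B.image fun γ => γ ^ ringChar F ^ e, fun β hβ => ?_⟩
  obtain ⟨γ, rfl⟩ := IsAlgClosed.exists_pow_nat_eq β (Nat.pos_of_ne_zero hk)
  obtain ⟨s, h1, h2⟩ := hB γ fun hγ => hβ (Finset.mem_image_of_mem _ hγ)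
  refine ⟨s, h1, fun x hx => ?_⟩
  rw [pre_iff_solutions hc hh, he, mem_solutions_pow S hk, (h2 x hx).2]
  exact ⟨(h2 x hx).1, rfl⟩

lemma one_lt_deg [Fintype F] {g h : F[X]} (hc : IsCoprime g h) (hh : h ≠ 0)
    (hd : 1 ≤ max g.natDegree h.natDegree) {S : RatFunc F} (hS : IsReduction S (frac g h))
    (h2 : Two g h) : 1 < deg S := by
  have hp : (ringChar F).Prime := CharP.char_is_prime F (ringChar F)
  have : Fact (ringChar F).Prime := ⟨hp⟩
  have h1 := deg_pos_of_reduction hc hh hd hS
  obtain ⟨⟨e, he⟩, -⟩ := hS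
  have hk : ringChar F ^ e ≠ 0 := pow_ne_zero _ hp.ne_zero
  obtain ⟨B, hB⟩ := h2
  obtain ⟨β, hβ⟩ := Infinite.exists_notMem_finset B
  obtain ⟨x, y, hxy, hx, hy⟩ := hB β hβ
  rw [pre_iff_solutions hc hh, he, mem_solutions_pow S hk] at hx hy
  have h3 : aeval x S.num / aeval x S.denom = aeval y S.num / aeval y S.denom :=
    iterateFrobenius_inj (AlgebraicClosure F) (ringChar F) e (hx.2.trans hy.2.symm)
  by_contra hcon
  have h4 : max S.num.natDegree S.denom.natDegree = 1 := by
    unfold deg at h1 hcon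
    omega
  exact hxy ((one_of_degree_one S.isCoprime_num_denom S.denom_ne_zero h4).1 x y _
    ⟨hx.1, h3⟩ ⟨hy.1, rfl⟩)

/-- Growth by the factor `d` away from a finite exceptional set. -/
lemma exp_of_unbounded' {K : Type} (φ : K → K) (B : Finset K) (T : ℕ → Set K) {d : ℕ}
    (hd : 1 < d) (hfin : ∀ n, (T n).Finite)
    (hT : ∀ n, ∀ β ∈ T n, β ∉ B → ∃ s : Finset K, d ≤ s.card ∧ ∀ x ∈ s, x ∈ T (n + 1) ∧ φ x = β)
    (hunb : ∃ n, 2 * B.card < (T n).ncard) :
    ∃ n₀, ∀ n, n₀ ≤ n → d ^ (n - n₀) ≤ (T n).ncard := by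
  classical
  have hstep : ∀ n, d * (T n).ncard ≤ (T (n + 1)).ncard + d * B.card := by
    intro n
    rw [Set.ncard_eq_toFinset_card _ (hfin n), Set.ncard_eq_toFinset_card _ (hfin (n + 1))]
    have h1 := Finset.mul_card_image_le_card_of_maps_to (f := φ)
      (s := (hfin (n + 1)).toFinset.filter fun x => φ x ∈ (hfin n).toFinset \ B)
      (t := (hfin n).toFinset \ B) (fun a ha => (Finset.mem_filter.mp ha).2) d (by
        intro β hβ
        rw [Finset.mem_sdiff, Set.Finite.mem_toFinset] at hβ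
        obtain ⟨s, hs, hs'⟩ := hT n β hβ.1 hβ.2
        refine hs.trans (Finset.card_le_card fun x hx => ?_)
        simp [(hs' x hx).1, (hs' x hx).2, hβ.1, hβ.2])
    have h2 := Finset.card_filter_le (hfin (n + 1)).toFinset
      fun x => φ x ∈ (hfin n).toFinset \ B
    have h3 : (hfin n).toFinset.card ≤ ((hfin n).toFinset \ B).card + B.card :=
      Finset.card_le_card_sdiff_add_card
    have h4 := Nat.mul_le_mul_left d h3
    rw [mul_add] at h4
    omega
  obtain ⟨n₀, hn₀⟩ := hunb
  refine ⟨n₀, fun n hn => ?_⟩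
  have : 2 * B.card + d ^ (n - n₀) ≤ (T n).ncard := by
    induction n, hn using Nat.le_induction with
    | base => simpa using hn₀
    | succ n hn ih =>
      have h1 := hstep n
      have h2 := Nat.mul_le_mul_left d ih
      have h3 : 2 * B.card ≤ d * B.card := Nat.mul_le_mul_right _ hd
      rw [mul_add, mul_left_comm] at h2
      rw [Nat.succ_sub hn, pow_succ']
      omega
  omega

/-- The count of irreducible polynomials of small degree, with the sharp constant. -/
lemma sharp_of_exp [Fintype F] (P : ℕ → F[X]) (hP : ∀ n, P n ≠ 0) {d : ℕ} (hd : 1 < d) (n₀ : ℕ)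
    (h : ∀ n, n₀ ≤ n → d ^ (n - n₀) ≤ (rts (P n)).ncard) {b : ℝ}
    (hb : b < Real.logb (Fintype.card F) d) :
    ∀ᶠ n : ℕ in atTop, b * n ≤ avgDeg (P n) := by
  rcases le_or_gt b 0 with hb0 | hb0
  · refine Eventually.of_forall fun n => ?_
    exact (mul_nonpos_of_nonpos_of_nonneg hb0 (Nat.cast_nonneg n)).trans
      (div_nonneg (Nat.cast_nonneg _) (Nat.cast_nonneg _))
  set q := Fintype.card F with hq
  have hq1 : (1 : ℝ) < q := by exact_mod_cast Fintype.one_lt_card
  have hq0 : (0 : ℝ) < q := by linarith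
  have hd0 : (0 : ℝ) < d := by positivity
  obtain ⟨a, hba, ha⟩ := exists_between hb
  have ha0 : 0 < a := hb0.trans hba
  have hr : (q : ℝ) ^ a < d := (Real.lt_logb_iff_rpow_lt hq1 hd0).1 ha
  set r : ℝ := (q : ℝ) ^ a / d with hr'
  have hr0 : 0 ≤ r := by positivity
  have hr1 : r < 1 := (div_lt_one hd0).2 hr
  have hlim : Tendsto (fun n : ℕ => (q : ℝ) ^ 2 * (d : ℝ) ^ n₀ * (a * (n * r ^ n) + r ^ n)) atTop
      (𝓝 ((q : ℝ) ^ 2 * (d : ℝ) ^ n₀ * (a * 0 + 0))) :=
    (((tendsto_self_mul_const_pow_of_lt_one hr0 hr1).const_mul a).add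
      (tendsto_pow_atTop_nhds_zero_of_lt_one hr0 hr1)).const_mul _
  have hη : (q : ℝ) ^ 2 * (d : ℝ) ^ n₀ * (a * 0 + 0) < (a - b) / b := by
    rw [mul_zero, add_zero, mul_zero]
    exact div_pos (sub_pos.2 hba) hb0
  filter_upwards [hlim.eventually (gt_mem_nhds hη), eventually_ge_atTop n₀] with n h1 hn
  set L := ⌈a * n⌉₊ with hL
  have hL1 : a * n ≤ L := Nat.le_ceil _
  have hL2 : (L : ℝ) ≤ a * n + 1 := (Nat.ceil_lt_add_one (by positivity)).le
  have hδ : (d : ℝ) ^ (n - n₀) ≤ sqfreeDeg (P n) := by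
    exact_mod_cast (h n hn).trans (ncard_rts_le_sqfreeDeg (hP n))
  have hδ0 : (0 : ℝ) < sqfreeDeg (P n) := lt_of_lt_of_le (by positivity) hδ
  have h2 : (q : ℝ) ^ (L + 1) ≤ (q : ℝ) ^ 2 * ((q : ℝ) ^ a) ^ n := by
    rw [← Real.rpow_natCast (q : ℝ) (L + 1), ← Real.rpow_natCast (q : ℝ) 2,
      ← Real.rpow_mul_natCast hq0.le, ← Real.rpow_add hq0]
    refine Real.rpow_le_rpow_of_exponent_le hq1.le ?_
    push_cast
    linarith
  have h3 : ((q : ℝ) ^ a) ^ n = r ^ n * ((d : ℝ) ^ n₀ * (d : ℝ) ^ (n - n₀)) := by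
    rw [← pow_add, Nat.add_sub_cancel' hn, ← mul_pow, hr', div_mul_cancel₀ _ hd0.ne']
  have h4 : (L : ℝ) * (q : ℝ) ^ (L + 1) ≤ (a - b) / b * sqfreeDeg (P n) := by
    calc (L : ℝ) * (q : ℝ) ^ (L + 1) ≤ (a * n + 1) * ((q : ℝ) ^ 2 * ((q : ℝ) ^ a) ^ n) :=
          mul_le_mul hL2 h2 (by positivity) (by positivity)
      _ = (q : ℝ) ^ 2 * (d : ℝ) ^ n₀ * (a * (n * r ^ n) + r ^ n) * (d : ℝ) ^ (n - n₀) := by
          rw [h3]; ring
      _ ≤ (a - b) / b * sqfreeDeg (P n) :=
          mul_le_mul h1.le hδ (by positivity) (div_pos (sub_pos.2 hba) hb0).le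
  have h5 : (L : ℝ) * (factorSet (P n)).ncard ≤ L * (q : ℝ) ^ (L + 1) + sqfreeDeg (P n) := by
    exact_mod_cast mul_ncard_factorSet_le (hP n) L
  have hN : 0 < (factorSet (P n)).ncard := by
    rcases Nat.eq_zero_or_pos (factorSet (P n)).ncard with h0 | h0
    · rw [Set.ncard_eq_zero (factorSet_finite (hP n))] at h0
      have : sqfreeDeg (P n) = 0 := by
        unfold sqfreeDeg
        rw [h0]
        simp
      rw [this] at hδ0
      simp at hδ0
    · exact h0
  have hN' : (0 : ℝ) < (factorSet (P n)).ncard := by exact_mod_cast hN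
  unfold avgDeg
  rw [le_div_iff₀ hN']
  have h6 : a * n * (factorSet (P n)).ncard ≤ a / b * sqfreeDeg (P n) := by
    have e : a / b = (a - b) / b + 1 := by field_simp; ring
    rw [e]
    nlinarith [mul_le_mul_of_nonneg_right hL1 hN'.le]
  have h7 := mul_le_mul_of_nonneg_left h6 (div_pos hb0 ha0).le
  have e1 : b / a * (a * n * (factorSet (P n)).ncard) = b * n * (factorSet (P n)).ncard := by
    field_simp
  have e2 : b / a * (a / b * sqfreeDeg (P n)) = sqfreeDeg (P n) := by field_simp
  rwa [e1, e2] at h7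

theorem sharp_of_noncritical [Fintype F] {g h : F[X]} (hc : IsCoprime g h) (hh : h ≠ 0)
    (hd : 1 ≤ max g.natDegree h.natDegree) {f : F[X]} (hf : f ≠ 0) {α : AlgebraicClosure F}
    (hα : aeval α f = 0) (hcrit : ¬ Critical (frac g h) α)
    (hinf : ∀ j, ¬ ValueAtInfty (iter (frac g h) j) α) :
    ∃ S, IsReduction S (frac g h) ∧ 1 < deg S ∧ ∀ b < Real.logb (Fintype.card F) (deg S),
      ∀ᶠ n : ℕ in atTop, b * n ≤ avgDeg ((transform g h)^[n] f) := by
  have hne := iterate_ne_zero hc hh hd hf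
  obtain ⟨S, hS⟩ := exists_reduction (frac g h) (max_natDegree_pos (frac_ne_C hc hh hd))
  have h2 : Two g h :=
    (one_or_two hc hh hd).resolve_left fun h1 => hcrit (critical_of_one hc hh hd h1 α)
  have hdeg := one_lt_deg hc hh hd hS h2
  refine ⟨S, hS, hdeg, fun b hb => ?_⟩
  obtain ⟨B, hB⟩ := many_of_reduction hc hh hd hS
  have hunb := (dichotomy hc hh hd hf).1 (linear_of_noncritical hc hh hd hf hα hcrit hinf)
  obtain ⟨n₀, hn₀⟩ := exp_of_unbounded' (fun x => aeval x g / aeval x h) B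
    (fun n => rts ((transform g h)^[n] f)) hdeg (fun n => rts_finite (hne n)) (by
      intro n β hβ hβB
      obtain ⟨s, h3, h4⟩ := hB β hβB
      refine ⟨s, h3, fun x hx => ⟨?_, (h4 x hx).2⟩⟩
      rw [Function.iterate_succ_apply', mem_rts_transform hc (hne n), (h4 x hx).2]
      exact ⟨(h4 x hx).1, hβ⟩) (by
      by_contra hcon
      push Not at hcon
      exact hunb ⟨_, fun n => sqfreeDeg_le_of_rts (hne n) _ (hcon n)⟩)
  exact sharp_of_exp _ hne hdeg n₀ hn₀ hb

/-! The extremal example `R = x ^ q - x`, `f = x`. -/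

lemma transform_one (g f : F[X]) : transform g 1 f = f.comp g := by
  simp only [transform, one_pow, mul_one, Polynomial.comp, eval₂_eq_sum_range]

lemma avgDeg_le_of_forall {P : F[X]} (hP : P ≠ 0) {m : ℕ}
    (h : ∀ p ∈ factorSet P, p.natDegree ≤ m) : avgDeg P ≤ m := by
  unfold avgDeg
  refine div_le_of_le_mul₀ (Nat.cast_nonneg _) (Nat.cast_nonneg _) ?_
  rw [sqfreeDeg_eq hP, Set.ncard_eq_toFinset_card _ (factorSet_finite hP)]
  have := Finset.sum_le_card_nsmul (factorSet_finite hP).toFinset (fun p => p.natDegree) m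
    fun p hp => h p (by simpa using hp)
  rw [smul_eq_mul, mul_comm] at this
  exact_mod_cast this

section Example

variable (F) [Fintype F]

/-- The polynomial `x ^ q - x`. -/
noncomputable def gq : F[X] := X ^ Fintype.card F - X

/-- The `q`-th power map on polynomials, as a linear map. -/
noncomputable def sig : Module.End F F[X] := (FiniteField.frobeniusAlgHom F F[X]).toLinearMap

variable {F}

lemma sig_apply (P : F[X]) : sig F P = P ^ Fintype.card F := rfl

lemma sig_pow (m : ℕ) (P : F[X]) : (sig F ^ m) P = P ^ Fintype.card F ^ m := by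
  induction m with
  | zero => simp
  | succ m ih => rw [pow_succ', Module.End.mul_apply, ih, sig_apply, ← pow_mul, ← pow_succ]

lemma iterate_gq (n : ℕ) : (transform (gq F) 1)^[n] X = ((sig F - 1) ^ n) X := by
  have key : ∀ (n : ℕ) (P : F[X]),
      (((sig F - 1) ^ n) P).comp (gq F) = ((sig F - 1) ^ n) (P.comp (gq F)) := by
    intro n P
    induction n with
    | zero => simp
    | succ n ih =>
      simp only [pow_succ', Module.End.mul_apply, LinearMap.sub_apply, Module.End.one_apply,
        sig_apply, sub_comp, pow_comp, ih]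
  induction n with
  | zero => simp
  | succ n ih =>
    rw [Function.iterate_succ_apply', ih, transform_one, key, X_comp, pow_succ,
      Module.End.mul_apply]
    rfl

lemma iterate_gq_pow (j : ℕ) :
    (transform (gq F) 1)^[ringChar F ^ j] X = X ^ Fintype.card F ^ ringChar F ^ j - X := by
  have : Fact (ringChar F).Prime := ⟨CharP.char_is_prime F (ringChar F)⟩
  have : CharP (Module.End F F[X]) (ringChar F) := charP_of_injective_algebraMap' F _
  rw [iterate_gq, sub_pow_char_pow_of_commute _ _ (Commute.one_right _), one_pow,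
    LinearMap.sub_apply, sig_pow]
  rfl

lemma natDegree_gq : (gq F).natDegree = Fintype.card F :=
  FiniteField.X_pow_card_sub_X_natDegree_eq F Fintype.one_lt_card

lemma hd_gq : 1 ≤ max (gq F).natDegree (1 : F[X]).natDegree := by
  rw [natDegree_gq]
  exact le_max_of_le_left Fintype.card_pos

lemma avgDeg_gq (j : ℕ) :
    avgDeg ((transform (gq F) 1)^[ringChar F ^ j] X) ≤ (ringChar F ^ j : ℕ) := by
  have hp : (ringChar F).Prime := CharP.char_is_prime F (ringChar F)
  refine avgDeg_le_of_forall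
    (iterate_ne_zero isCoprime_one_right one_ne_zero hd_gq X_ne_zero _) fun p hp' => ?_
  refine Nat.le_of_dvd (pow_pos hp.pos _)
    (hp'.2.1.natDegree_dvd_of_dvd_X_pow_card_pow_sub_X ?_)
  rw [Nat.card_eq_fintype_card, ← iterate_gq_pow]
  exact hp'.2.2

lemma iter_gq (n : ℕ) : iter (frac (gq F) 1) n = frac ((transform (gq F) 1)^[n] X) 1 := by
  induction n with
  | zero => simp [iter, frac]
  | succ n ih =>
    obtain ⟨e1, e2⟩ := num_denom_frac (g := (transform (gq F) 1)^[n] X) isCoprime_one_right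
      monic_one
    rw [iter, ih, comp, e1, e2, Function.iterate_succ_apply', transform_one]
    simp only [frac, map_one, div_one]
    rw [aeval_algebraMap_apply, comp_eq_aeval]

lemma not_valueAtInfty_gq (j : ℕ) (α : AlgebraicClosure F) :
    ¬ ValueAtInfty (iter (frac (gq F) 1) j) α := by
  have h1 := max_natDegree_pos (iter_ne_C (g := gq F) isCoprime_one_right one_ne_zero hd_gq j)
  have h2 : (iter (frac (gq F) 1) j).denom = 1 := by
    rw [iter_gq]
    exact (num_denom_frac isCoprime_one_right monic_one).2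
  rintro ⟨h3, -⟩
  apply h3
  rw [h2] at h1 ⊢
  rw [coeff_one, if_neg (by omega)]

lemma not_critical_gq : ¬ Critical (frac (gq F) 1) 0 := by
  classical
  have hp : (ringChar F).Prime := CharP.char_is_prime F (ringChar F)
  rintro ⟨M, hM⟩
  have h1 := hM (ringChar F ^ M)
  set P : F[X] := X ^ Fintype.card F ^ ringChar F ^ M - X with hP
  have hq : 1 < Fintype.card F := Fintype.one_lt_card
  have hn : ringChar F ^ M ≠ 0 := pow_ne_zero _ hp.ne_zero
  have hP0 : P ≠ 0 := FiniteField.X_pow_card_pow_sub_X_ne_zero F hn hq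
  have h2 : solutions (iter (frac (gq F) 1) (ringChar F ^ M)) 0 = rts P := by
    obtain ⟨e1, e2⟩ := num_denom_frac (g := P) isCoprime_one_right monic_one
    ext x
    rw [iter_gq, iterate_gq_pow, ← hP]
    simp [solutions, rts, e1, e2]
  have hsep : P.Separable := by
    obtain ⟨k, -, hk⟩ := FiniteField.card F (ringChar F)
    refine galois_poly_separable (ringChar F) _ (dvd_pow ?_ hn)
    rw [hk]
    exact dvd_pow_self _ k.ne_zero
  have h3 : (rts P).ncard = P.natDegree := by
    rw [rts_eq hP0, ← card_rootSet_eq_natDegree (K := AlgebraicClosure F) hsep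
      (IsAlgClosed.splits _), ← Nat.card_eq_fintype_card, Nat.card_coe_set_eq]
  rw [h2, ← (rts_finite hP0).cast_ncard_eq, h3, hP,
    FiniteField.X_pow_card_pow_sub_X_natDegree_eq F hn hq] at h1
  have h4 : Fintype.card F ^ ringChar F ^ M ≤ M := by exact_mod_cast h1
  have h5 : M < ringChar F ^ M := Nat.lt_pow_self hp.one_lt
  have h6 : ringChar F ^ M < Fintype.card F ^ ringChar F ^ M := Nat.lt_pow_self hq
  omega

lemma deg_reduction_gq {S : RatFunc F} (hS : IsReduction S (frac (gq F) 1)) :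
    deg S = Fintype.card F := by
  have hp : (ringChar F).Prime := CharP.char_is_prime F (ringChar F)
  obtain ⟨e1, e2⟩ := num_denom_frac (g := gq F) isCoprime_one_right monic_one
  obtain ⟨⟨e, he⟩, -⟩ := hS
  rcases e with _ | e
  · rw [pow_zero, pow_one] at he
    rw [← he, deg, e1, e2, natDegree_gq, natDegree_one, Nat.max_zero]
  · exfalso
    rw [he, (num_denom_pow S _).1] at e1
    have h1 := congrArg derivative e1
    rw [derivative_pow, gq, derivative_sub, derivative_X_pow, derivative_X,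
      FiniteField.cast_card_eq_zero, Nat.cast_pow, ringChar.Nat.cast_ringChar,
      zero_pow (Nat.succ_ne_zero e)] at h1
    simp at h1

theorem le_one_of_bound {c : ℝ} {S : RatFunc F} (hS : IsReduction S (frac (gq F) 1))
    (h : ∀ b < c * Real.logb (Fintype.card F) (deg S),
      ∀ᶠ n : ℕ in atTop, b * n ≤ avgDeg ((transform (gq F) 1)^[n] X)) : c ≤ 1 := by
  have hp : (ringChar F).Prime := CharP.char_is_prime F (ringChar F)
  have hq : (1 : ℝ) < Fintype.card F := by exact_mod_cast Fintype.one_lt_card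
  rw [deg_reduction_gq hS, Real.logb_self_eq_one hq, mul_one] at h
  refine le_of_forall_lt_imp_le_of_dense fun b hb => ?_
  obtain ⟨j, hj⟩ := ((tendsto_pow_atTop_atTop_of_one_lt hp.one_lt).eventually (h b hb)).exists
  have h1 : (0 : ℝ) < (ringChar F ^ j : ℕ) := by exact_mod_cast pow_pos hp.pos j
  exact le_of_mul_le_mul_right (hj.trans ((avgDeg_gq j).trans (one_mul _).ge)) h1

end Example

end Pool.Agent.Lib.MP_fa793f_nt
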